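import Pool.Agent.KS6_47.PR.Iter

/-!
# The packed Ramsey theorem for pairs does not imply weak Koenig's lemma

There is an omega-model of `RCA₀` in which `PRT^2_k` holds for every `k` (in particular for
`k = 3`) and weak Koenig's lemma fails.

The one-step theorem: if no function computable from `Z` avoids the diagonal function
`n ↦ φ_n(n)` with values in `{0, 1}`, then every instance of `PRT^2_k` computable from `Z` has a
solution `H` such that no function computable from `H ⊕ Z` avoids the diagonal function. The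
forcing conditions use `Π⁰₁` classes of covers of the natural numbers (as in Liu's proof for
Ramsey's theorem), one finite set of blocks for each pair of colours and each part of the covers,
and an ultrafilter of sets which contain large homogeneous blocks.
-/

set_option autoImplicit false

namespace Pool.Agent.Results.MP_9d76da_lc.PackedRamseyWithoutWKL

open Pool.Agent.Helper617.RM (IsModelRCA0)
open Pool.Agent.R623.Om (omegaModel)

/-- The set of the codes of the pairs `(x, phi x)`. -/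
def graph (phi : ℕ → ℕ) : Set ℕ := {p | ∃ x, p = Nat.pair x (phi x)}

/-- The set of the codes of the triples `(x, y, f x y)` with `x < y`. It codes the colouring of
the sets `{x, y}` with two elements `x < y` which gives to `{x, y}` the colour `f x y`. -/
def pairGraph (f : ℕ → ℕ → ℕ) : Set ℕ :=
  {p | ∃ x y, x < y ∧ p = Nat.pair (Nat.pair x y) (f x y)}

/-- `w → (m)^2_r`: for every finite set `X` with `w` elements and every colouring `f` of the
two-element subsets of `X` with the colours `1, …, r` there is `H ⊆ X` with `m` elements such that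
`f` is constant on the two-element subsets of `H`. -/
def Arrow (w m r : ℕ) : Prop :=
  ∀ (X : Finset ℕ) (f : ℕ → ℕ → ℕ), X.card = w →
    (∀ x ∈ X, ∀ y ∈ X, x < y → 1 ≤ f x y ∧ f x y ≤ r) →
    ∃ H ⊆ X, H.card = m ∧ ∃ i, ∀ x ∈ H, ∀ y ∈ H, x < y → f x y = i

/-- `A` is packed for `phi`: `|A ∩ {1, …, w}| ≥ phi w` for infinitely many `w`. -/
def Packed (phi : ℕ → ℕ) (A : Set ℕ) : Prop :=
  {w | phi w ≤ (A ∩ Set.Icc 1 w).ncard}.Infinite

/-- `A` is semi-homogeneous for `f`: at most two colours appear on the two-element subsets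
of `A`. -/
def SemiHomogeneous (f : ℕ → ℕ → ℕ) (A : Set ℕ) : Prop :=
  {i | ∃ x ∈ A, ∃ y ∈ A, x < y ∧ f x y = i}.encard ≤ 2

/-- The packed Ramsey theorem `PRT^2_k` in the omega-model with second-order part `S`: for every
`phi` in the model with `w → (phi w)^2_{k+1}` for all `w` and every colouring `f` in the model of
the two-element sets with the colours `1, …, k` there is a set in the model which is packed for
`phi` and semi-homogeneous for `f`. -/
def PRT (S : Set (Set ℕ)) (k : ℕ) : Prop :=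
  ∀ phi : ℕ → ℕ, graph phi ∈ S → (∀ w, Arrow w (phi w) (k + 1)) →
    ∀ f : ℕ → ℕ → ℕ, (∀ x y, x < y → 1 ≤ f x y ∧ f x y ≤ k) → pairGraph f ∈ S →
      ∃ H ∈ S, Packed phi H ∧ SemiHomogeneous f H

/-- Weak Koenig's lemma in the omega-model with second-order part `S`: every infinite tree `T` of
finite binary sequences in the model (by the codes of its elements) has an infinite path `g`
in the model. -/
def WKL (S : Set (Set ℕ)) : Prop :=
  ∀ T : Set (List Bool), Encodable.encode '' T ∈ S → (∀ σ τ, σ <+: τ → τ ∈ T → σ ∈ T) →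
    T.Infinite → ∃ g : ℕ → Bool, {n | g n = true} ∈ S ∧ ∀ n, (List.range n).map g ∈ T

open Encodable Pool.Agent.Helper446 Pool.Agent.Helper446.Defs Pool.Agent.Helper446.RE
  Pool.Agent.Helper446.Oracle Pool.Agent.R623.Dec Pool.Agent.KS6_47.PR

theorem arr_of_arrow {w m k : ℕ} (h : Arrow w m (k + 1)) : Arr w m (k + 1) := by
  intro X f hX
  obtain ⟨H, h1, h2, i, h3⟩ := h X (fun x y => (f x y).val + 1) hX
    (fun x _ y _ _ => ⟨by omega, by have := (f x y).2; omega⟩)
  refine ⟨H, h1, h2, ?_⟩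
  by_cases h4 : ∃ x ∈ H, ∃ y ∈ H, x < y
  · obtain ⟨x, hx, y, hy, hxy⟩ := h4
    refine ⟨f x y, fun u hu v hv huv => Fin.ext ?_⟩
    have h5 := h3 x hx y hy hxy
    have h6 := h3 u hu v hv huv
    omega
  · exact ⟨0, fun x hx y hy hxy => absurd ⟨x, hx, y, hy, hxy⟩ h4⟩

theorem mem_graph {phi : ℕ → ℕ} {x y : ℕ} : Nat.pair x y ∈ graph phi ↔ phi x = y := by
  constructor
  · rintro ⟨z, hz⟩
    rw [Nat.pair_eq_pair] at hz
    obtain ⟨rfl, rfl⟩ := hz
    rfl
  · rintro rfl
    exact ⟨x, rfl⟩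

theorem mem_pairGraph {f : ℕ → ℕ → ℕ} {x y z : ℕ} :
    Nat.pair (Nat.pair x y) z ∈ pairGraph f ↔ x < y ∧ f x y = z := by
  constructor
  · rintro ⟨u, v, huv, h⟩
    rw [Nat.pair_eq_pair, Nat.pair_eq_pair] at h
    obtain ⟨⟨rfl, rfl⟩, rfl⟩ := h
    exact ⟨huv, rfl⟩
  · rintro ⟨h, rfl⟩
    exact ⟨x, y, h, rfl⟩

/-- **One step.** -/
theorem exists_solution {Z : Set ℕ} (hZ : ¬ Sep Z) {k : ℕ} {phi : ℕ → ℕ} (hphi : Le (graph phi) Z)
    (harr : ∀ w, Arrow w (phi w) (k + 1)) {f : ℕ → ℕ → ℕ}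
    (hk : ∀ x y, x < y → 1 ≤ f x y ∧ f x y ≤ k) (hf : Le (pairGraph f) Z) :
    ∃ H, ¬ Sep (jn H Z) ∧ Packed phi H ∧ SemiHomogeneous f H := by
  classical
  have hk0 : 0 < k := by
    have := hk 0 1 (by omega)
    omega
  let c : ℕ → ℕ → Fin k := fun x y =>
    if h : x < y then ⟨f x y - 1, by have := hk x y h; omega⟩ else ⟨0, hk0⟩
  have hlt : ∀ x y, x < y → f x y = (c x y).val + 1 := by
    intro x y h
    have := hk x y h
    simp only [c, dif_pos h]
    omega
  have hc : REIn Z fun p : (ℕ × ℕ) × Fin k => c p.1.1 p.1.2 = p.2 := by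
    have hval : Computable fun p : (ℕ × ℕ) × Fin k => (p.2 : ℕ) :=
      (Primrec.fin_val_iff.2 Primrec.snd).to_comp
    have h1 : REIn Z fun p : (ℕ × ℕ) × Fin k =>
        (p.1.1 < p.1.2 ∧ Nat.pair (Nat.pair p.1.1 p.1.2) ((p.2 : ℕ) + 1) ∈ pairGraph f) ∨
        (p.1.2 ≤ p.1.1 ∧ (p.2 : ℕ) = 0) := by
      refine REIn.or (REIn.and (REIn.of_re (RE.lt (by fun_prop) (by fun_prop))) ?_)
        (REIn.and (REIn.of_re (RE.le (by fun_prop) (by fun_prop)))
          (REIn.of_re (RE.eq hval (by fun_prop))))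
      refine hf.1.comp (f := fun p : (ℕ × ℕ) × Fin k =>
        Nat.pair (Nat.pair p.1.1 p.1.2) ((p.2 : ℕ) + 1)) ?_
      exact Primrec₂.natPair.to_comp.comp (by fun_prop) (Computable.succ.comp hval)
    refine h1.of_eq fun p => ?_
    obtain ⟨⟨x, y⟩, i⟩ := p
    simp only [mem_pairGraph]
    by_cases h : x < y
    · have h2 := hlt x y h
      constructor
      · rintro (⟨_, _, h3⟩ | ⟨h3, _⟩)
        · apply Fin.ext
          omega
        · omega
      · intro h3
        refine Or.inl ⟨h, h, ?_⟩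
        rw [h2, h3]
    · simp only [c, dif_neg h]
      constructor
      · rintro (⟨h3, _⟩ | ⟨_, h3⟩)
        · exact absurd h3 h
        · exact Fin.ext h3.symm
      · intro h3
        exact Or.inr ⟨by omega, by rw [← h3]⟩
  have hphi' : REIn Z fun p : ℕ × ℕ => phi p.1 = p.2 := by
    have h1 : REIn Z fun p : ℕ × ℕ => Nat.pair p.1 p.2 ∈ graph phi :=
      hphi.1.comp (f := fun p : ℕ × ℕ => Nat.pair p.1 p.2) (by fun_prop)
    exact h1.of_eq fun p => mem_graph
  obtain ⟨I, hI1, hI2⟩ := exists_inst c phi hc hphi' fun w => arr_of_arrow (harr w)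
  obtain ⟨H, σ, h1, hpos, h2, h3⟩ := one_step I hZ
  refine ⟨H, h1, ?_, ?_⟩
  · refine Set.infinite_of_not_bddAbove ?_
    rintro ⟨b, hb⟩
    obtain ⟨w, hw, B, hB1, hB2⟩ := h2 b
    have h4 : w ∈ {w | phi w ≤ (H ∩ Set.Icc 1 w).ncard} := by
      refine (hI2 w).trans (hB2.trans ?_)
      rw [← Set.ncard_coe_finset B]
      refine Set.ncard_le_ncard (fun x hx => ?_) ((Set.finite_Icc 1 w).inter_of_right H)
      obtain ⟨h5, h6⟩ := hB1 x (Finset.mem_coe.1 hx)
      exact ⟨h5, hpos x h5, h6⟩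
    have := hb h4
    omega
  · have h4 : {i | ∃ x ∈ H, ∃ y ∈ H, x < y ∧ f x y = i} ⊆
        {(σ.1 : ℕ) + 1, (σ.2 : ℕ) + 1} := by
      rintro i ⟨x, hx, y, hy, hxy, rfl⟩
      rw [hlt x y hxy]
      rcases h3 x hx y hy hxy with h | h
      · rw [hI1] at h
        rw [h]
        exact Or.inl rfl
      · rw [hI1] at h
        rw [h]
        exact Or.inr rfl
    refine (Set.encard_le_encard h4).trans ((Set.encard_insert_le _ _).trans ?_)
    rw [Set.encard_singleton]
    norm_num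

/-- the instance coded by `A` and `B` has a solution computable from `Z` -/
def Solved (A B : Set ℕ) (k : ℕ) (Z : Set ℕ) : Prop :=
  ∀ phi f, graph phi = A → pairGraph f = B → (∀ w, Arrow w (phi w) (k + 1)) →
    (∀ x y, x < y → 1 ≤ f x y ∧ f x y ≤ k) → ∃ H, Le H Z ∧ Packed phi H ∧ SemiHomogeneous f H

theorem exists_next (Z : Set ℕ) (hZ : ¬ Sep Z) (A B : Set ℕ) (k : ℕ) (hA : Le A Z)
    (hB : Le B Z) : ∃ Z', ¬ Sep Z' ∧ Le Z Z' ∧ Solved A B k Z' := by
  by_cases h : ∃ phi f, graph phi = A ∧ pairGraph f = B ∧ (∀ w, Arrow w (phi w) (k + 1)) ∧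
      ∀ x y, x < y → 1 ≤ f x y ∧ f x y ≤ k
  · obtain ⟨phi, f, rfl, rfl, h3, h4⟩ := h
    obtain ⟨H, h5, h6, h7⟩ := exists_solution hZ hA h3 h4 hB
    refine ⟨jn H Z, h5, le_jn_right H Z, ?_⟩
    intro phi' f' h1' h2' _ _
    have e1 : phi' = phi := by
      funext x
      have : Nat.pair x (phi x) ∈ graph phi' := by
        rw [h1']
        exact mem_graph.2 rfl
      exact mem_graph.1 this
    have e2 : ∀ x y, x < y → f' x y = f x y := by
      intro x y hxy
      have : Nat.pair (Nat.pair x y) (f x y) ∈ pairGraph f' := by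
        rw [h2']
        exact mem_pairGraph.2 ⟨hxy, rfl⟩
      exact (mem_pairGraph.1 this).2
    refine ⟨H, le_jn_left H Z, by rw [e1]; exact h6, ?_⟩
    have e3 : {i | ∃ x ∈ H, ∃ y ∈ H, x < y ∧ f' x y = i} =
        {i | ∃ x ∈ H, ∃ y ∈ H, x < y ∧ f x y = i} := by
      ext i
      constructor
      · rintro ⟨x, hx, y, hy, hxy, rfl⟩
        exact ⟨x, hx, y, hy, hxy, (e2 x y hxy).symm⟩
      · rintro ⟨x, hx, y, hy, hxy, rfl⟩
        exact ⟨x, hx, y, hy, hxy, e2 x y hxy⟩
    unfold SemiHomogeneous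
    rw [e3]
    exact h7
  · refine ⟨Z, hZ, Le.refl Z, fun phi f h1 h2 h3 h4 => absurd ⟨phi, f, h1, h2, h3, h4⟩ h⟩

/-- **Negative answer to Q1.** There is a collection `S` of sets of natural numbers such that the
structure with the standard natural numbers and the sets in `S` is a model of `RCA₀`, satisfies
the packed Ramsey theorem `PRT^2_k` for every `k`, and does not satisfy weak Koenig's lemma. So
`RCA₀ + PRT^2_3` does not prove weak Koenig's lemma. -/
theorem result : ∃ S : Set (Set ℕ),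
    IsModelRCA0 (omegaModel S) ∧ (∀ k, PRT S k) ∧ ¬ WKL S := by
  obtain ⟨W, _, hW1, hW2, hW3⟩ := iterate (G := fun Z => ¬ Sep Z) (P := Solved) not_sep_empty
    exists_next
  have hPRT : ∀ k, PRT {A | ∃ n, Le A (W n)} k := by
    rintro k phi ⟨m, hm⟩ harr f hf ⟨n, hn⟩
    obtain ⟨l, hl⟩ := hW3 (max m n) (graph phi) (pairGraph f) k
      (hm.trans (hW2 _ _ (le_max_left _ _))) (hn.trans (hW2 _ _ (le_max_right _ _)))
    obtain ⟨H, h1, h2⟩ := hl phi f rfl rfl harr hf
    exact ⟨H, ⟨l, h1⟩, h2⟩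
  refine ⟨{A | ∃ n, Le A (W n)}, Pool.Agent.R623.Om.isModel ⟨?_, ?_, ?_⟩, hPRT, ?_⟩
  · rintro A B h ⟨n, hn⟩
    exact ⟨n, h.trans hn⟩
  · rintro A ⟨m, hm⟩ B ⟨n, hn⟩
    exact ⟨W (max m n), ⟨_, Le.refl _⟩, hm.trans (hW2 _ _ (le_max_left _ _)),
      hn.trans (hW2 _ _ (le_max_right _ _))⟩
  · exact ⟨_, 0, Le.refl _⟩
  · intro h
    obtain ⟨g, ⟨n, hn⟩, hg⟩ := h TD ⟨0, dec_codes⟩ (fun σ τ h1 h2 => TD_prefix h1 h2) TD_infinite
    exact hW1 n (sep_of_path hn hg)

end Pool.Agent.Results.MP_9d76da_lc.PackedRamseyWithoutWKL
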